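import Pool.Agent.W_MP_d6e406_an.Final

set_option autoImplicit false

open Filter Topology

/-!
Let `X` be a real normed space containing an isomorphic copy of `ℓ₁` and let `N` be any
equivalent norm on `X`.  Then the dual norm of `N` fails the sequential Kadec-Klee property:
there are a point `f` of the dual unit sphere and a sequence `g n` in the dual unit ball
which converges weakly (that is, against every element of the bidual) to `f`, but which stays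
at norm distance at least `ε > 0` from `f`.
In particular the dual norm is not ALUR.
-/

namespace Pool.Agent.Results.MP_d6e406_an.EllOneDualKadecKlee

universe u

theorem result : ∀ (X : Type u) [NormedAddCommGroup X] [NormedSpace ℝ X],
    (∃ T : lp (fun _ : ℕ => ℝ) 1 →L[ℝ] X, ∃ c : ℝ, 0 < c ∧ ∀ y, c * ‖y‖ ≤ ‖T y‖) →
    ∀ N : X → ℝ, (∀ x y, N (x + y) ≤ N x + N y) → (∀ (r : ℝ) (x : X), N (r • x) = |r| * N x) →
      (∃ c C : ℝ, 0 < c ∧ ∀ x, c * ‖x‖ ≤ N x ∧ N x ≤ C * ‖x‖) →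
      ∃ (f : X →L[ℝ] ℝ) (g : ℕ → X →L[ℝ] ℝ) (ε : ℝ),
        (∀ x, f x ≤ N x) ∧ (∀ δ : ℝ, 0 < δ → ∃ x, N x ≤ 1 ∧ 1 - δ < f x) ∧
        (∀ n x, g n x ≤ N x) ∧
        (∀ φ : (X →L[ℝ] ℝ) →L[ℝ] ℝ, Tendsto (fun n => φ (g n)) atTop (𝓝 (φ f))) ∧
        0 < ε ∧ ∀ n, ε ≤ ‖g n - f‖ := by
  intro X _ _ hT N _ hN2 hN3
  obtain ⟨T, c, hc, hTc⟩ := hT
  obtain ⟨c1, C1, hc1, hN⟩ := hN3
  obtain ⟨f, g, ε, hε, h1, h2, h3, h4, h5⟩ :=
    Pool.Agent.W_MP_d6e406_an.main_seq T c hc hTc N hN2 c1 hc1 (fun x => (hN x).1)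
  exact ⟨f, g, ε, h1, h2, h3, h4, hε, h5⟩

end Pool.Agent.Results.MP_d6e406_an.EllOneDualKadecKlee
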